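import Pool.Agent.W163.P3.CStm

set_option autoImplicit false
set_option maxRecDepth 100000
open Finset

namespace Pool.Agent.W310.P3

open Pool.Agent.W163.P3 Pool.Agent.W163.P3.Cert

theorem nsum_eq (n : ℕ) (f : ℕ → ℕ) : nsum n f = ∑ k ∈ range n, f k := by
  induction n with
  | zero => rfl
  | succ n ih => rw [sum_range_succ, ← ih]; rfl

theorem nall_true {n : ℕ} {f : ℕ → Bool} (h : nall n f = true) : ∀ k < n, f k = true := by
  induction n with
  | zero => intro k hk; omega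
  | succ n ih =>
    have h' : (nall n f && f n) = true := h
    rw [Bool.and_eq_true] at h'
    intro k hk
    rcases Nat.lt_succ_iff_lt_or_eq.mp hk with hk | rfl
    · exact ih h'.1 k hk
    · exact h'.2

def ckT : Bool := nall 27 fun c => and (Nat.ble (Nat.add (Nat.div (ta c 0) 729) 1) 7)
  (nall 27 fun i => and (Nat.beq (ta c i) (Nat.add (Nat.mul 729 (Nat.div (ta c 0) 729))
    (Nat.mul 27 (tb c i)))) (Nat.ble (Nat.add (tb c i) 1) 27))

def ckM : Bool := nall 27 fun i => Nat.ble (Nat.add (tm i) 1) 15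

theorem ckT_true : ckT = true := by decide +kernel

theorem ckM_true : ckM = true := by decide +kernel

theorem ta_eq (c : ℕ) (hc : c < 27) : ∃ t < 7, ∀ i < 27,
    ta c i = 729 * t + 27 * tb c i ∧ tb c i < 27 := by
  have h := nall_true ckT_true c hc
  have h' := (Bool.and_eq_true _ _).mp h
  refine ⟨ta c 0 / 729, Nat.le_of_ble_eq_true h'.1, fun i hi => ?_⟩
  have h2 := (Bool.and_eq_true _ _).mp (nall_true h'.2 i hi)
  exact ⟨Nat.eq_of_beq_eq_true h2.1, Nat.le_of_ble_eq_true h2.2⟩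

theorem tm_lt (i : ℕ) (hi : i < 27) : tm i < 15 :=
  Nat.le_of_ble_eq_true (nall_true ckM_true i hi)

theorem expand (s : Finset ℕ) (u v : ℕ → ℕ) (B : ℤ) :
    ∑ k ∈ s, ((u k : ℤ) - B) * ((v k : ℤ) - B) =
      ∑ k ∈ s, (u k : ℤ) * (v k : ℤ) - B * ∑ k ∈ s, ((u k : ℤ) + (v k : ℤ)) + s.card * B ^ 2 := by
  rw [mul_sum, ← sum_sub_distrib]
  have : (s.card : ℤ) * B ^ 2 = ∑ k ∈ s, B ^ 2 := by simp
  rw [this, ← sum_add_distrib]
  exact sum_congr rfl fun k _ => by ring

theorem q3_eq (H : ∀ t < 7, chk3 t = true) (c : ℕ) (hc : c < 27) : ∃ L : ℕ → ℕ → ℕ,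
    ∀ i < 27, ∀ j < 27,
    (q3 c i j : ℤ) = ∑ k ∈ range 27, ((L i k : ℤ) - 134217728) * ((L j k : ℤ) - 134217728)
      + 2251799813685248 := by
  obtain ⟨t, ht, hi⟩ := ta_eq c hc
  refine ⟨fun i k => ll (729 * t + (27 * tb c i + k)), fun i hi' j hj' => ?_⟩
  have h := Nat.eq_of_beq_eq_true
    (nall_true (nall_true (H t ht) (tb c i) (hi i hi').2) (tb c j) (hi j hj').2)
  rw [nsum_eq, nsum_eq] at h
  have h2 : ((∑ k ∈ range 27, (ll (729 * t + (27 * tb c i + k)) * ll (729 * t + (27 * tb c j + k)))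
      + 488640559569698816 : ℕ) : ℤ)
      = ((lq (729 * t + (27 * tb c i + tb c j)) + 134217728 * ∑ k ∈ range 27,
        (ll (729 * t + (27 * tb c i + k)) + ll (729 * t + (27 * tb c j + k))) : ℕ) : ℤ) :=
    congrArg _ h
  push_cast at h2
  have hq : q3 c i j = lq (729 * t + (27 * tb c i + tb c j)) := by
    show lq (ta c i + tb c j) = _
    rw [(hi i hi').1, add_assoc]
  rw [hq]
  rw [expand (range 27) (fun k => ll (729 * t + (27 * tb c i + k)))
    (fun k => ll (729 * t + (27 * tb c j + k))) 134217728, card_range]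
  push_cast
  linarith

theorem q1_eq (H : chk1 = true) (i j : ℕ) (hi : i < 27) (hj : j < 27) :
    (q1 i j : ℤ) = ∑ k ∈ range 15, ((ll1 (15 * tm i + k) : ℤ) - 134217728)
      * ((ll1 (15 * tm j + k) : ℤ) - 134217728) + 2251799813685248 := by
  have h := Nat.eq_of_beq_eq_true
    (nall_true (nall_true H (tm i) (tm_lt i hi)) (tm j) (tm_lt j hj))
  rw [nsum_eq, nsum_eq] at h
  have h2 : ((∑ k ∈ range 15, (ll1 (15 * tm i + k) * ll1 (15 * tm j + k))
      + 272467777455915008 : ℕ) : ℤ)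
      = ((lq1 (15 * tm i + tm j) + 134217728 * ∑ k ∈ range 15,
        (ll1 (15 * tm i + k) + ll1 (15 * tm j + k)) : ℕ) : ℤ) :=
    congrArg _ h
  push_cast at h2
  have hq : q1 i j = lq1 (15 * tm i + tm j) := rfl
  rw [hq]
  rw [expand (range 15) (fun k => ll1 (15 * tm i + k))
    (fun k => ll1 (15 * tm j + k)) 134217728, card_range]
  push_cast
  linarith

def e5 (V : Type) : (Fin 5 → V) ≃ V × V × V × V × V where
  toFun x := (x 0, x 1, x 2, x 3, x 4)
  invFun p := ![p.1, p.2.1, p.2.2.1, p.2.2.2.1, p.2.2.2.2]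
  left_inv x := by funext i; fin_cases i <;> rfl
  right_inv p := rfl

theorem conv {V : Type} [Fintype V] (F : V → V → V → V → V → ℕ) :
    ∑ x : Fin 5 → V, F (x 0) (x 1) (x 2) (x 3) (x 4)
      = ∑ a, ∑ b, ∑ c, ∑ d, ∑ e, F a b c d e := by
  rw [← Equiv.sum_comp (e5 V).symm]
  simp only [Fintype.sum_prod_type]
  rfl

theorem psd {V : Type} [Fintype V] (s : Finset ℕ) (u : ℕ → V → ℤ) :
    0 ≤ ∑ d, ∑ e, ∑ k ∈ s, u k d * u k e := by
  have h : ∑ d, ∑ e, ∑ k ∈ s, u k d * u k e = ∑ k ∈ s, (∑ d, u k d) * ∑ e, u k e := by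
    simp only [Finset.sum_mul_sum]
    calc ∑ d, ∑ e, ∑ k ∈ s, u k d * u k e = ∑ d, ∑ k ∈ s, ∑ e, u k d * u k e :=
          sum_congr rfl fun d _ => sum_comm
      _ = _ := sum_comm
  rw [h]
  exact sum_nonneg fun k _ => mul_self_nonneg _

variable {V : Type} (rel : V → V → ℕ)

theorem Pr_lt {d e : ℕ} (h : Pr d e) : d < 3 := by
  rcases h with ⟨rfl, rfl⟩ | ⟨rfl, rfl⟩ | ⟨rfl, rfl⟩ <;> norm_num

theorem cd_lt {x y z : ℕ} (hx : x < 3) (hy : y < 3) (hz : z < 3) : cd x y z < 27 := by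
  show x + (3 * y + 9 * z) < 27
  omega

theorem lower3 [Fintype V] (H : ∀ t < 7, chk3 t = true) (h : ∀ x y, Pr (rel x y) (rel y x)) :
    (2251799813685248 : ℤ) * Fintype.card V ^ 5
      ≤ ((∑ x : Fin 5 → V, FQ rel (x 0) (x 1) (x 2) (x 3) (x 4) : ℕ) : ℤ) := by
  have hl : ∀ x y, rel x y < 3 := fun x y => Pr_lt (h x y)
  rw [conv]
  push_cast
  have e1 : (2251799813685248 : ℤ) * Fintype.card V ^ 5
      = ∑ a : V, ∑ b : V, ∑ c : V, ∑ d : V, ∑ e : V, (2251799813685248 : ℤ) := by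
    simp only [Finset.sum_const, Finset.card_univ, nsmul_eq_mul]
    ring
  rw [e1]
  refine sum_le_sum fun a _ => sum_le_sum fun b _ => sum_le_sum fun c _ => ?_
  obtain ⟨L, hL⟩ := q3_eq H (cd (rel a b) (rel a c) (rel b c)) (cd_lt (hl _ _) (hl _ _) (hl _ _))
  have e2 : ∀ d e : V, (FQ rel a b c d e : ℤ) =
      ∑ k ∈ range 27, ((L (cd (rel a d) (rel b d) (rel c d)) k : ℤ) - 134217728) *
        ((L (cd (rel a e) (rel b e) (rel c e)) k : ℤ) - 134217728)
      + (2251799813685248 : ℤ) := by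
    intro d e
    rw [FQ, hL _ (cd_lt (hl _ _) (hl _ _) (hl _ _)) _ (cd_lt (hl _ _) (hl _ _) (hl _ _))]
  simp only [e2, Finset.sum_add_distrib (s := (Finset.univ : Finset V))]
  have := psd (V := V) (range 27)
    (fun k d => (L (cd (rel a d) (rel b d) (rel c d)) k : ℤ) - 134217728)
  linarith

theorem lower1 [Fintype V] (H : chk1 = true) (h : ∀ x y, Pr (rel x y) (rel y x)) :
    (2251799813685248 : ℤ) * Fintype.card V ^ 5
      ≤ ((∑ x : Fin 5 → V, Cert.F1 rel (x 0) (x 1) (x 2) (x 3) (x 4) : ℕ) : ℤ) := by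
  have hl : ∀ x y, rel x y < 3 := fun x y => Pr_lt (h x y)
  rw [conv]
  push_cast
  have e2 : ∀ a b c d e : V, (Cert.F1 rel a b c d e : ℤ) =
      ∑ k ∈ range 15, ((ll1 (15 * tm (cd (rel a b) (rel a c) (rel b c)) + k) : ℤ) - 134217728) *
        ((ll1 (15 * tm (cd (rel a d) (rel a e) (rel d e)) + k) : ℤ) - 134217728)
        + 2251799813685248 := by
    intro a b c d e
    rw [Cert.F1, q1_eq H _ _ (cd_lt (hl _ _) (hl _ _) (hl _ _)) (cd_lt (hl _ _) (hl _ _) (hl _ _))]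
  have e3 : ∀ a : V, (2251799813685248 : ℤ) * Fintype.card V ^ 4 ≤
      ∑ b : V, ∑ c : V, ∑ d : V, ∑ e : V, (Cert.F1 rel a b c d e : ℤ) := by
    intro a
    have p := psd (V := V × V) (range 15)
      (fun k q => (ll1 (15 * tm (cd (rel a q.1) (rel a q.2) (rel q.1 q.2)) + k) : ℤ) - 134217728)
    simp only [Fintype.sum_prod_type] at p
    simp only [e2]
    have e4 : ∑ b : V, ∑ c : V, ∑ d : V, ∑ e : V,
        (∑ k ∈ range 15, ((ll1 (15 * tm (cd (rel a b) (rel a c) (rel b c)) + k) : ℤ) - 134217728) *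
        ((ll1 (15 * tm (cd (rel a d) (rel a e) (rel d e)) + k) : ℤ) - 134217728)
          + 2251799813685248)
        = ∑ b : V, ∑ c : V, ∑ d : V, ∑ e : V,
        (∑ k ∈ range 15, ((ll1 (15 * tm (cd (rel a b) (rel a c) (rel b c)) + k) : ℤ) - 134217728) *
        ((ll1 (15 * tm (cd (rel a d) (rel a e) (rel d e)) + k) : ℤ) - 134217728))
          + 2251799813685248 * Fintype.card V ^ 4 := by
      simp only [Finset.sum_add_distrib (s := (Finset.univ : Finset V)), Finset.sum_const,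
        Finset.card_univ, nsmul_eq_mul]
      ring
    rw [e4]
    linarith
  calc (2251799813685248 : ℤ) * Fintype.card V ^ 5
      = ∑ _a : V, (2251799813685248 : ℤ) * Fintype.card V ^ 4 := by
        simp only [Finset.sum_const, Finset.card_univ, nsmul_eq_mul]; ring
    _ ≤ _ := sum_le_sum fun a _ => e3 a

theorem t_PSD : Pool.Agent.W163.P3.Cert.S_PSD := by
  intro H H1 V _ r hr
  constructor
  · exact_mod_cast lower3 r H hr
  · exact_mod_cast lower1 r H1 hr

end Pool.Agent.W310.P3
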