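import Pool.Agent.W163.P3.Stm3
import Pool.Agent.W346.P3.Prod

set_option autoImplicit false

open Finset

namespace Pool.Agent.W310.P3L

open Pool.Agent.W163.P3

/-- the directed 4-cycle -/
def r0 (x y : Fin 4) : ℕ := if x.val + 1 = y.val ∨ (x.val = 3 ∧ y.val = 0) then 1
  else if y.val + 1 = x.val ∨ (y.val = 3 ∧ x.val = 0) then 2 else 0

lemma r0_ori : Ori r0 := by
  intro x y
  unfold Pr
  revert x y
  decide

lemma r0_TS : TS r0 univ = 24 := by decide +kernel

lemma pow4 (k : ℕ) : ∃ r : Fin (4 ^ k) → Fin (4 ^ k) → ℕ, Ori r ∧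
    2 * (4 ^ k) ^ 3 ≤ 5 * TS r univ + 2 * 4 ^ k := by
  induction k with
  | zero =>
    refine ⟨fun _ _ => 0, fun _ _ => Or.inl ⟨rfl, rfl⟩, ?_⟩
    simp
  | succ k ih =>
    obtain ⟨s, hs, hT⟩ := ih
    have h2 := Pool.Agent.W346.P3.TS_sub r0_ori hs
    have e : 4 ^ (k + 1) = 4 * 4 ^ k := by ring
    rw [e]
    generalize 4 ^ k = m at *
    set f : Fin (4 * m) ≃ Fin 4 × Fin m := finProdFinEquiv.symm with hf
    refine ⟨fun x y => Pool.Agent.W346.P3.sub r0 s (f x) (f y),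
      fun x y => Pool.Agent.W346.P3.sub_ori r0_ori hs (f x) (f y), ?_⟩
    rw [Pool.Agent.W346.P3.TS_equiv f]
    rw [r0_TS] at h2
    nlinarith

lemma sum_del {m : ℕ} (v : Fin (m + 1)) (f : Fin (m + 1) → ℕ) :
    ∑ i : Fin m, f (v.succAbove i) = ∑ x, (if x = v then 0 else f x) := by
  rw [Fin.sum_univ_succAbove _ v, if_pos rfl, zero_add]
  refine sum_congr rfl fun i _ => ?_
  rw [if_neg (Fin.succAbove_ne v i)]

lemma TS_del {m : ℕ} (r : Fin (m + 1) → Fin (m + 1) → ℕ) (v : Fin (m + 1)) :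
    TS (fun i j => r (v.succAbove i) (v.succAbove j)) univ =
      ∑ x, ∑ y, ∑ z, (if x = v ∨ y = v ∨ z = v then 0 else pc (r x y) (r x z) (r y z)) := by
  unfold TS
  rw [sum_del v (fun x => ∑ j : Fin m, ∑ k : Fin m,
    pc (r x (v.succAbove j)) (r x (v.succAbove k)) (r (v.succAbove j) (v.succAbove k)))]
  refine sum_congr rfl fun x _ => ?_
  by_cases hx : x = v
  · rw [if_pos hx]
    symm
    refine sum_eq_zero fun y _ => sum_eq_zero fun z _ => ?_
    rw [if_pos (Or.inl hx)]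
  rw [if_neg hx]
  rw [sum_del v (fun y => ∑ k : Fin m,
    pc (r x y) (r x (v.succAbove k)) (r y (v.succAbove k)))]
  refine sum_congr rfl fun y _ => ?_
  by_cases hy : y = v
  · rw [if_pos hy]
    symm
    refine sum_eq_zero fun z _ => ?_
    rw [if_pos (Or.inr (Or.inl hy))]
  rw [if_neg hy]
  rw [sum_del v (fun z => pc (r x y) (r x z) (r y z))]
  refine sum_congr rfl fun z _ => ?_
  by_cases hz : z = v
  · rw [if_pos hz, if_pos (Or.inr (Or.inr hz))]
  · rw [if_neg hz, if_neg]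
    rintro (h | h | h)
    exacts [hx h, hy h, hz h]

lemma pc_distinct {V : Type} {r : V → V → ℕ} (h : Ori r) (x y z : V)
    (hp : pc (r x y) (r x z) (r y z) ≠ 0) : x ≠ y ∧ x ≠ z ∧ y ≠ z := by
  refine ⟨?_, ?_, ?_⟩
  · rintro rfl
    apply hp
    rw [Pool.Agent.W346.P3.ori_self h]
    unfold pc
    rw [if_neg]
    omega
  · rintro rfl
    apply hp
    have h6 := h x y
    rw [Pool.Agent.W346.P3.ori_self h]
    unfold Pr at h6
    unfold pc
    rw [if_neg]
    omega
  · rintro rfl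
    apply hp
    rw [Pool.Agent.W346.P3.ori_self h]
    unfold pc
    rw [if_neg]
    omega

lemma sum_TS_del {m : ℕ} (r : Fin (m + 1) → Fin (m + 1) → ℕ) (hr : Ori r) :
    ∑ v : Fin (m + 1), TS (fun i j => r (v.succAbove i) (v.succAbove j)) univ + 3 * TS r univ
      = (m + 1) * TS r univ := by
  simp only [TS_del]
  have e : ∑ v : Fin (m + 1), ∑ x : Fin (m + 1), ∑ y : Fin (m + 1), ∑ z : Fin (m + 1),
      (if x = v ∨ y = v ∨ z = v then 0 else pc (r x y) (r x z) (r y z)) =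
      ∑ x : Fin (m + 1), ∑ y : Fin (m + 1), ∑ z : Fin (m + 1), ∑ v : Fin (m + 1),
      (if x = v ∨ y = v ∨ z = v then 0 else pc (r x y) (r x z) (r y z)) := by
    rw [sum_comm]
    refine sum_congr rfl fun x _ => ?_
    rw [sum_comm]
    refine sum_congr rfl fun y _ => ?_
    rw [sum_comm]
  rw [e]
  unfold TS
  rw [mul_sum, mul_sum, ← sum_add_distrib]
  refine sum_congr rfl fun x _ => ?_
  rw [mul_sum, mul_sum, ← sum_add_distrib]
  refine sum_congr rfl fun y _ => ?_
  rw [mul_sum, mul_sum, ← sum_add_distrib]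
  refine sum_congr rfl fun z _ => ?_
  by_cases hp : pc (r x y) (r x z) (r y z) = 0
  · simp [hp]
  · obtain ⟨h1, h2, h3⟩ := pc_distinct hr x y z hp
    have e1 : ∀ v : Fin (m + 1), (if x = v ∨ y = v ∨ z = v then 0 else pc (r x y) (r x z) (r y z))
        = (if v ∈ ({x, y, z} : Finset (Fin (m + 1))) then 0
          else pc (r x y) (r x z) (r y z)) := by
      intro v
      refine if_congr ?_ rfl rfl
      simp only [mem_insert, mem_singleton]
      tauto
    have c3 : ({x, y, z} : Finset (Fin (m + 1))).card = 3 := card_eq_three.mpr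
      ⟨x, y, z, h1, h2, h3, rfl⟩
    have e2 : ∑ v : Fin (m + 1), (if v ∈ ({x, y, z} : Finset (Fin (m + 1))) then 0
          else pc (r x y) (r x z) (r y z))
          = (({x, y, z} : Finset (Fin (m + 1)))ᶜ).card * pc (r x y) (r x z) (r y z) := by
      rw [← sum_filter_not_add_sum_filter univ (fun v => v ∈ ({x, y, z} : Finset (Fin (m + 1))))]
      have a1 : ∑ v ∈ univ.filter (fun v => v ∉ ({x, y, z} : Finset (Fin (m + 1)))),
          (if v ∈ ({x, y, z} : Finset (Fin (m + 1))) then 0 else pc (r x y) (r x z) (r y z))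
          = ∑ v ∈ univ.filter (fun v => v ∉ ({x, y, z} : Finset (Fin (m + 1)))),
            pc (r x y) (r x z) (r y z) := by
        refine sum_congr rfl fun v hv => ?_
        rw [if_neg (mem_filter.1 hv).2]
      have a2 : ∑ v ∈ univ.filter (fun v => v ∈ ({x, y, z} : Finset (Fin (m + 1)))),
          (if v ∈ ({x, y, z} : Finset (Fin (m + 1))) then 0 else pc (r x y) (r x z) (r y z))
          = 0 := by
        refine sum_eq_zero fun v hv => ?_
        rw [if_pos (mem_filter.1 hv).2]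
      rw [a1, a2, add_zero, sum_const, smul_eq_mul]
      congr 2
      ext v
      simp
    rw [sum_congr rfl fun v _ => e1 v, e2, ← add_mul]
    congr 1
    have c4 := card_compl_add_card ({x, y, z} : Finset (Fin (m + 1)))
    rw [c3, Fintype.card_fin] at c4
    exact c4

/-- the property for one order -/
def L (n : ℕ) : Prop := ∃ r : Fin n → Fin n → ℕ, Ori r ∧
  2 * (n : ℝ) * ((n : ℝ) - 1) * ((n : ℝ) - 2) ≤ 5 * (TS r univ : ℝ)

lemma L_pred (m : ℕ) (h : L (m + 1)) : L m := by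
  obtain ⟨r, hr, h1⟩ := h
  have hs := sum_TS_del r hr
  by_contra hcon
  have hlt : ∀ v : Fin (m + 1), 5 * (TS (fun i j => r (v.succAbove i) (v.succAbove j)) univ : ℝ)
      < 2 * (m : ℝ) * ((m : ℝ) - 1) * ((m : ℝ) - 2) := by
    intro v
    by_contra hv
    exact hcon ⟨_, fun i j => hr _ _, not_lt.mp hv⟩
  have h2 : ∑ v : Fin (m + 1), 5 * (TS (fun i j => r (v.succAbove i) (v.succAbove j)) univ : ℝ)
      < ∑ v : Fin (m + 1), 2 * (m : ℝ) * ((m : ℝ) - 1) * ((m : ℝ) - 2) :=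
    sum_lt_sum_of_nonempty ⟨0, mem_univ _⟩ (fun v _ => hlt v)
  rw [sum_const, card_univ, Fintype.card_fin, nsmul_eq_mul, ← mul_sum] at h2
  have hs' : ∑ v : Fin (m + 1), (TS (fun i j => r (v.succAbove i) (v.succAbove j)) univ : ℝ)
      = ((m : ℝ) - 2) * TS r univ := by
    have : ((∑ v : Fin (m + 1), TS (fun i j => r (v.succAbove i) (v.succAbove j)) univ
      + 3 * TS r univ : ℕ) : ℝ) = (((m + 1) * TS r univ : ℕ) : ℝ) := by exact_mod_cast hs
    push_cast at this
    linarith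
  rw [hs'] at h2
  have hm2 : (2 : ℝ) ≤ m := by
    by_contra hm
    have hm' : m < 2 := by
      have := not_le.mp hm
      exact_mod_cast this
    have h3 := hlt 0
    have h4 : (0 : ℝ) ≤ 5 * (TS (fun i j => r ((0 : Fin (m + 1)).succAbove i)
      ((0 : Fin (m + 1)).succAbove j)) univ : ℝ) := by positivity
    have h5 : 2 * (m : ℝ) * ((m : ℝ) - 1) * ((m : ℝ) - 2) = 0 := by
      interval_cases m
      · simp
      · simp
    linarith
  push_cast at h1 h2
  have h6 : ((m : ℝ) - 2) * (2 * ((m : ℝ) + 1) * ((m : ℝ) + 1 - 1) * ((m : ℝ) + 1 - 2))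
      ≤ ((m : ℝ) - 2) * (5 * (TS r univ : ℝ)) := mul_le_mul_of_nonneg_left h1 (by linarith)
  nlinarith

lemma L_pow (k : ℕ) : L (4 ^ k) := by
  obtain ⟨r, hr, h⟩ := pow4 k
  refine ⟨r, hr, ?_⟩
  have h1 : (2 : ℝ) * ((4 ^ k : ℕ) : ℝ) ^ 3 ≤ 5 * (TS r univ : ℝ) + 2 * ((4 ^ k : ℕ) : ℝ) := by
    exact_mod_cast h
  have h2 : (1 : ℝ) ≤ ((4 ^ k : ℕ) : ℝ) := by
    exact_mod_cast Nat.one_le_pow k 4 (by norm_num)
  set N : ℝ := ((4 ^ k : ℕ) : ℝ)
  nlinarith

theorem t_LOW : Pool.Agent.W163.P3.S_LOW := by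
  intro n
  have h : ∀ d N : ℕ, N = n + d → L N → L n := by
    intro d
    induction d with
    | zero => intro N hN h; rw [hN] at h; exact h
    | succ d ih =>
      intro N hN h
      refine ih (n + d) rfl (L_pred _ ?_)
      rw [hN] at h
      exact h
  have h4 : n < 4 ^ n := Nat.lt_pow_self (by norm_num)
  exact h (4 ^ n - n) (4 ^ n) (by omega) (L_pow n)

end Pool.Agent.W310.P3L
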